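import Pool.Agent.Helper77.H3.Defs
import Pool.Agent.Helper64.HK.Line
import Pool.Agent.Helper94.HK.Nat

/-!
# The quartic on the line through the two points
-/

set_option autoImplicit false

namespace Pool.Agent.Helper15.H3

open Pool.Agent.Helper64.HK Pool.Agent.Helper77.H3
open Pool.Agent.Helper28.HN (I aff)
open Pool.Agent.Helper94.HK (map_Fh map_Ah map_Bh map_Ch map_detM)

section line

variable {a : Fin (1 + 1) → Fin (2 + 1)} {S : Type*} [CommRing S] (c : Ix a → S)

theorem ev_c (t : S) : (fun e => (Polynomial.evalRingHom t) (cC c e)) = c := by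
  funext e
  simp [cC]

theorem ev_ct (u v : T3 → S) (t : S) :
    (fun j l => (Polynomial.evalRingHom t) (ct (lnP u v) j l)) = ct fun e => u e + t * v e := by
  rw [Pool.Agent.Helper94.HK.map_ct]
  congr 1
  funext e
  simp [lnP]
  ring

theorem ev_A (u v : T3 → S) (t : S) : (Ah (cC c) (ct (lnP u v))).eval t =
    Ah c (ct fun e => u e + t * v e) := by
  have h := map_Ah (Polynomial.evalRingHom t) (cC c) (ct (lnP u v))
  rw [ev_c, ev_ct] at h
  exact h

theorem ev_B (u v : T3 → S) (t : S) : (Bh (cC c) (ct (lnP u v))).eval t =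
    Bh c (ct fun e => u e + t * v e) := by
  have h := map_Bh (Polynomial.evalRingHom t) (cC c) (ct (lnP u v))
  rw [ev_c, ev_ct] at h
  exact h

theorem ev_F (u v : T3 → S) (z t : S) :
    (Fh (cC c) (ct (lnP u v)) (Polynomial.C z)).eval t = Fh c (ct fun e => u e + t * v e) z := by
  have h := map_Fh (Polynomial.evalRingHom t) (cC c) (ct (lnP u v)) (Polynomial.C z)
  rw [ev_c, ev_ct] at h
  simpa using h

theorem ev_M (u v : T3 → S) (t : S) : ((Mx (cC c) (ct (lnP u v))).det).eval t =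
    (Mx c (ct fun e => u e + t * v e)).det := by
  have h := map_detM (Polynomial.evalRingHom t) (cC c) (ct (lnP u v))
  rw [ev_c, ev_ct] at h
  exact h

/-- The derivative at `1` of the form on the line through `u` is the derivative at `0` on the line
through `u + v`. -/
theorem dFh_shift (u v w : T3 → S) (hw : ∀ e, w e = u e + v e) (z : S) :
    (Fh (cC c) (ct (lnP u v)) (Polynomial.C z)).derivative.eval 1 = dFh c w z v := by
  have h := map_Fh (Polynomial.compRingHom (Polynomial.X + 1 : Polynomial S)) (cC c)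
    (ct (lnP u v)) (Polynomial.C z)
  have h1 : (fun e => (Polynomial.compRingHom (Polynomial.X + 1 : Polynomial S)) (cC c e)) =
      cC c := by
    funext e
    simp [cC]
  have h2 : (fun j l => (Polynomial.compRingHom (Polynomial.X + 1 : Polynomial S))
      (ct (lnP u v) j l)) = ct (lnP w v) := by
    rw [Pool.Agent.Helper94.HK.map_ct]
    congr 1
    funext e
    simp only [lnP, Polynomial.coe_compRingHom_apply, Polynomial.mul_comp,
      Polynomial.C_comp, Polynomial.X_comp, hw e, map_add]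
    ring
  rw [h1, h2] at h
  simp only [Polynomial.coe_compRingHom_apply, Polynomial.C_comp] at h
  rw [dFh, ← h, Polynomial.derivative_comp]
  simp

end line

section quart

variable {K : Type*} [Field K]

theorem sq_dvd {g : Polynomial K} {t : K} (h0 : g.eval t = 0) (h1 : g.derivative.eval t = 0) :
    (Polynomial.X - Polynomial.C t) ^ 2 ∣ g := by
  obtain ⟨h, hh⟩ := Polynomial.dvd_iff_isRoot.2 h0
  subst hh
  have h2 : h.eval t = 0 := by simpa using h1
  obtain ⟨h', rfl⟩ := Polynomial.dvd_iff_isRoot.2 h2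
  exact ⟨h', by ring⟩

/-- A double root of the form at `t` gives a double root of the branch polynomial. -/
theorem sq_dvd_b {A B F D b : Polynomial K} {z t : K}
    (hb : (A * Polynomial.C z + B) ^ 2 - A * F = D ^ 2 * b) (hD : D.eval t ≠ 0)
    (hAB : A.eval t * z + B.eval t = 0) (hF : F.eval t = 0) (hF' : F.derivative.eval t = 0) :
    (Polynomial.X - Polynomial.C t) ^ 2 ∣ b := by
  have h1 : (Polynomial.X - Polynomial.C t) ∣ A * Polynomial.C z + B := by
    rw [Polynomial.dvd_iff_isRoot, Polynomial.IsRoot]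
    simpa using hAB
  have h2 : (Polynomial.X - Polynomial.C t) ^ 2 ∣ D ^ 2 * b := by
    rw [← hb]
    exact dvd_sub (pow_dvd_pow_of_dvd h1 2) (Dvd.dvd.mul_left (sq_dvd hF hF') A)
  refine IsCoprime.dvd_of_dvd_mul_left ?_ h2
  refine IsCoprime.pow ?_
  rw [Polynomial.irreducible_X_sub_C t |>.coprime_iff_not_dvd]
  rw [Polynomial.dvd_iff_isRoot]
  exact hD

theorem coeff_quart (a b c d e : K) :
    (Polynomial.C a + Polynomial.C b * Polynomial.X + Polynomial.C c * Polynomial.X ^ 2 +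
      Polynomial.C d * Polynomial.X ^ 3 + Polynomial.C e * Polynomial.X ^ 4).coeff 0 = a ∧
    (Polynomial.C a + Polynomial.C b * Polynomial.X + Polynomial.C c * Polynomial.X ^ 2 +
      Polynomial.C d * Polynomial.X ^ 3 + Polynomial.C e * Polynomial.X ^ 4).coeff 1 = b ∧
    (Polynomial.C a + Polynomial.C b * Polynomial.X + Polynomial.C c * Polynomial.X ^ 2 +
      Polynomial.C d * Polynomial.X ^ 3 + Polynomial.C e * Polynomial.X ^ 4).coeff 2 = c ∧
    (Polynomial.C a + Polynomial.C b * Polynomial.X + Polynomial.C c * Polynomial.X ^ 2 +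
      Polynomial.C d * Polynomial.X ^ 3 + Polynomial.C e * Polynomial.X ^ 4).coeff 3 = d := by
  refine ⟨?_, ?_, ?_, ?_⟩ <;>
    simp [Polynomial.coeff_X, Polynomial.coeff_C, Polynomial.coeff_X_pow]

theorem coeffs (q : Polynomial K) : ec ((Polynomial.X * (1 - Polynomial.X)) ^ 2 * q) =
    fun i : Fin 4 => q.coeff i := by
  have h : (Polynomial.X * (1 - Polynomial.X)) ^ 2 * q =
      (q - 2 * (q * Polynomial.X) + q * Polynomial.X ^ 2) * Polynomial.X ^ 2 := by ring
  have h2 : ∀ n, (2 * (q * Polynomial.X)).coeff (n + 1) = 2 * q.coeff n := by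
    intro n
    rw [← map_ofNat Polynomial.C 2, Polynomial.coeff_C_mul,
      Polynomial.coeff_mul_X]
  have h20 : (2 * (q * Polynomial.X)).coeff 0 = 0 := by simp
  have h3 : ∀ n, (q * Polynomial.X ^ 2).coeff (n + 2) = q.coeff n := fun n =>
    Polynomial.coeff_mul_X_pow q 2 n
  have h30 : (q * Polynomial.X ^ 2).coeff 0 = 0 := by
    rw [Polynomial.coeff_mul_X_pow', if_neg (by norm_num)]
  have h31 : (q * Polynomial.X ^ 2).coeff 1 = 0 := by
    rw [Polynomial.coeff_mul_X_pow', if_neg (by norm_num)]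
  have hc : ∀ n, ((Polynomial.X * (1 - Polynomial.X)) ^ 2 * q).coeff (n + 2) =
      q.coeff n - (2 * (q * Polynomial.X)).coeff n + (q * Polynomial.X ^ 2).coeff n := by
    intro n
    rw [h, Polynomial.coeff_mul_X_pow, Polynomial.coeff_add, Polynomial.coeff_sub]
  have c0 := hc 0
  have c1 := hc 1
  have c2 := hc 2
  have c3 := hc 3
  rw [h20, h30] at c0
  rw [h31, h2 0] at c1
  rw [h2 1, h3 0] at c2
  rw [h2 2, h3 1] at c3
  funext i
  fin_cases i
  · change ((Polynomial.X * (1 - Polynomial.X)) ^ 2 * q).coeff (0 + 2) = q.coeff 0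
    rw [c0]
    ring
  · change ((Polynomial.X * (1 - Polynomial.X)) ^ 2 * q).coeff (1 + 2) +
      2 * ((Polynomial.X * (1 - Polynomial.X)) ^ 2 * q).coeff (0 + 2) = q.coeff 1
    rw [c0, c1]
    ring
  · change ((Polynomial.X * (1 - Polynomial.X)) ^ 2 * q).coeff (2 + 2) +
      2 * ((Polynomial.X * (1 - Polynomial.X)) ^ 2 * q).coeff (1 + 2) +
      3 * ((Polynomial.X * (1 - Polynomial.X)) ^ 2 * q).coeff (0 + 2) = q.coeff 2
    rw [c0, c1, c2]
    ring
  · change ((Polynomial.X * (1 - Polynomial.X)) ^ 2 * q).coeff (3 + 2) +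
      2 * ((Polynomial.X * (1 - Polynomial.X)) ^ 2 * q).coeff (2 + 2) +
      3 * ((Polynomial.X * (1 - Polynomial.X)) ^ 2 * q).coeff (1 + 2) +
      4 * ((Polynomial.X * (1 - Polynomial.X)) ^ 2 * q).coeff (0 + 2) = q.coeff 3
    rw [c0, c1, c2, c3]
    ring

theorem not_sq (q : Polynomial K) (hq : q.natDegree ≤ 4)
    (hG : G3 ((Polynomial.X * (1 - Polynomial.X)) ^ 2 * q) ≠ 0) : q.coeff 0 ≠ 0 ∧
      ∀ (e : K) (r : Polynomial K), q ≠ Polynomial.C e * r ^ 2 := by
  rw [G3, coeffs] at hG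
  have hG' : q.coeff 0 * (8 * q.coeff 0 ^ 2 * q.coeff 3 - q.coeff 1 *
      (4 * q.coeff 0 * q.coeff 2 - q.coeff 1 ^ 2)) ≠ 0 := hG
  refine ⟨left_ne_zero_of_mul hG', fun e r hqr => ?_⟩
  have h0 := left_ne_zero_of_mul hG'
  have he : e ≠ 0 := by
    rintro rfl
    rw [hqr] at h0
    simp at h0
  have hr : r ≠ 0 := by
    rintro rfl
    rw [hqr] at h0
    simp at h0
  have hdr : r.natDegree ≤ 2 := by
    have h1 : q.natDegree = 2 * r.natDegree := by
      rw [hqr, Polynomial.natDegree_C_mul he, Polynomial.natDegree_pow]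
    omega
  have hr3 : r = Polynomial.C (r.coeff 0) + Polynomial.C (r.coeff 1) * Polynomial.X +
      Polynomial.C (r.coeff 2) * Polynomial.X ^ 2 := by
    conv_lhs => rw [r.as_sum_range' 3 (by omega)]
    simp [Finset.sum_range_succ, ← Polynomial.C_mul_X_pow_eq_monomial]
  set r0 := r.coeff 0
  set r1 := r.coeff 1
  set r2 := r.coeff 2
  have hqe : q = Polynomial.C (e * r0 ^ 2) + Polynomial.C (2 * e * r0 * r1) * Polynomial.X +
      Polynomial.C (e * (r1 ^ 2 + 2 * r0 * r2)) * Polynomial.X ^ 2 +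
      Polynomial.C (2 * e * r1 * r2) * Polynomial.X ^ 3 +
      Polynomial.C (e * r2 ^ 2) * Polynomial.X ^ 4 := by
    rw [hqr, hr3]
    simp only [map_mul, map_add, map_pow, map_ofNat]
    ring
  obtain ⟨e0, e1, e2, e3⟩ := coeff_quart (e * r0 ^ 2) (2 * e * r0 * r1)
    (e * (r1 ^ 2 + 2 * r0 * r2)) (2 * e * r1 * r2) (e * r2 ^ 2)
  rw [← hqe] at e0 e1 e2 e3
  refine hG' ?_
  rw [e0, e1, e2, e3]
  ring

end quart

section main

variable {a : Fin (1 + 1) → Fin (2 + 1)} {K : Type*} [Field K] [CharZero K]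

theorem quart3 (c : Ix a → K) (x : Fin 8 → K) (h : ∀ i, Eqn3 c x i = 0) (hP : Pp3 c x ≠ 0)
    (b : Polynomial K) (hb : Bh (cC c) (ct (lnP (p0 x) (rr x))) ^ 2 -
      Ah (cC c) (ct (lnP (p0 x) (rr x))) * Ch (cC c) (ct (lnP (p0 x) (rr x))) =
        (Mx (cC c) (ct (lnP (p0 x) (rr x)))).det ^ 2 * b) (hd : b.natDegree ≤ 8) (hG : G3 b ≠ 0) :
    ∃ q : Polynomial K, b = (Polynomial.X * (1 - Polynomial.X)) ^ 2 * q ∧ q.natDegree ≤ 4 ∧
      q.coeff 0 ≠ 0 ∧ ∀ (e : K) (r : Polynomial K), q ≠ Polynomial.C e * r ^ 2 := by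
  have h0 : Fh c (ct (p0 x)) (x 3) = 0 := h 0
  have h1 : Ah c (ct (p0 x)) * x 3 + Bh c (ct (p0 x)) = 0 := h 1
  have h4 : dFh c (p0 x) (x 3) (rr x) = 0 := h 4
  have h5 : Fh c (ct (p1 x)) (x 7) = 0 := h 5
  have h6 : Ah c (ct (p1 x)) * x 7 + Bh c (ct (p1 x)) = 0 := h 6
  have h7 : dFh c (p1 x) (x 7) (rr x) = 0 := h 7
  rw [Pp3] at hP
  simp only [mul_ne_zero_iff] at hP
  obtain ⟨⟨⟨⟨⟨hD0, hD1⟩, -⟩, -⟩, -⟩, -⟩ := hP
  have t0 : (ct fun e => p0 x e + 0 * rr x e) = (ct (p0 x) : Fin (1 + 1) → I 2 → K) := by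
    congr 1
    funext e
    ring
  have t1 : (ct fun e => p0 x e + 1 * rr x e) = (ct (p1 x) : Fin (1 + 1) → I 2 → K) := by
    congr 1
    funext e
    rw [rr]
    ring
  have key : ∀ z : K, (Ah (cC c) (ct (lnP (p0 x) (rr x))) * Polynomial.C z +
      Bh (cC c) (ct (lnP (p0 x) (rr x)))) ^ 2 - Ah (cC c) (ct (lnP (p0 x) (rr x))) *
      Fh (cC c) (ct (lnP (p0 x) (rr x))) (Polynomial.C z) =
      (Mx (cC c) (ct (lnP (p0 x) (rr x)))).det ^ 2 * b := by
    intro z
    rw [← hb, Fh_eq]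
    ring
  have d0 : (Polynomial.X - Polynomial.C (0 : K)) ^ 2 ∣ b := by
    refine sq_dvd_b (key (x 3)) ?_ ?_ ?_ h4
    · rw [ev_M, t0]
      exact hD0
    · rw [ev_A, ev_B, t0]
      exact h1
    · rw [ev_F, t0]
      exact h0
  have d1 : (Polynomial.X - Polynomial.C (1 : K)) ^ 2 ∣ b := by
    refine sq_dvd_b (key (x 7)) ?_ ?_ ?_ ?_
    · rw [ev_M, t1]
      exact hD1
    · rw [ev_A, ev_B, t1]
      exact h6
    · rw [ev_F, t1]
      exact h5
    · rw [dFh_shift c (p0 x) (rr x) (p1 x) (fun e => by rw [rr]; ring)]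
      exact h7
  have hco : IsCoprime ((Polynomial.X - Polynomial.C (0 : K)) ^ 2)
      ((Polynomial.X - Polynomial.C (1 : K)) ^ 2) :=
    (Polynomial.isCoprime_X_sub_C_of_isUnit_sub (by simp)).pow
  obtain ⟨q, hq⟩ := hco.mul_dvd d0 d1
  have hq' : b = (Polynomial.X * (1 - Polynomial.X)) ^ 2 * q := by
    rw [hq, map_zero, map_one]
    ring
  have hq4 : q.natDegree ≤ 4 := by
    by_cases hq0 : q = 0
    · rw [hq0]
      simp
    have hm : ((Polynomial.X - Polynomial.C (0 : K)) ^ 2 *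
        (Polynomial.X - Polynomial.C (1 : K)) ^ 2).Monic :=
      ((Polynomial.monic_X_sub_C 0).pow 2).mul ((Polynomial.monic_X_sub_C 1).pow 2)
    have e1 : b.natDegree = 4 + q.natDegree := by
      rw [hq, hm.natDegree_mul' hq0, ((Polynomial.monic_X_sub_C (0 : K)).pow 2).natDegree_mul
        ((Polynomial.monic_X_sub_C 1).pow 2), (Polynomial.monic_X_sub_C (0 : K)).natDegree_pow,
        (Polynomial.monic_X_sub_C (1 : K)).natDegree_pow, Polynomial.natDegree_X_sub_C,
        Polynomial.natDegree_X_sub_C]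
    omega
  rw [hq'] at hG
  obtain ⟨g1, g2⟩ := not_sq q hq4 hG
  exact ⟨q, hq', hq4, g1, g2⟩

end main

end Pool.Agent.Helper15.H3
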